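import Mathlib

/-!
Homothetic closed curves in `E^4`, neither of which is a circle, whose distance graph is
2-regular with all components finite.
-/

namespace Pool.Agent.Results.MP_945a85_co.Main

open Set Real

/-- A closed locus: the image of a continuous map from the circle. -/
def IsClosedLocus {n : ℕ} (A : Set (EuclideanSpace ℝ (Fin n))) : Prop :=
  ∃ f : Circle → EuclideanSpace ℝ (Fin n), Continuous f ∧ range f = A

/-- `B` is a homothetic image of `A`. -/
def Homothetic {n : ℕ} (A B : Set (EuclideanSpace ℝ (Fin n))) : Prop :=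
  ∃ (l : ℝ) (v : EuclideanSpace ℝ (Fin n)), l ≠ 0 ∧ B = (fun x => l • x + v) '' A

/-- The distance graph `G_d` on the vertex set `A ∪ B`: points `p, q` are adjacent if they are
distinct, one of them is in `A`, the other in `B`, and `|p - q| = d`. -/
def distGraph {n : ℕ} (A B : Set (EuclideanSpace ℝ (Fin n))) (d : ℝ) :
    SimpleGraph ((A ∪ B : Set (EuclideanSpace ℝ (Fin n)))) where
  Adj p q := p ≠ q ∧
    ((p.1 ∈ A ∧ q.1 ∈ B) ∨ (p.1 ∈ B ∧ q.1 ∈ A)) ∧ dist p.1 q.1 = d
  symm := ⟨fun p q h => ⟨h.1.symm, h.2.1.symm.imp And.symm And.symm, by rw [dist_comm]; exact h.2.2⟩⟩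
  loopless := ⟨fun p h => h.1 rfl⟩

/-- A circle in `E^n`: the points of a 2-dimensional affine plane at a fixed positive distance from
a point of that plane. -/
def IsCircle {n : ℕ} (S : Set (EuclideanSpace ℝ (Fin n))) : Prop :=
  ∃ (P : AffineSubspace ℝ (EuclideanSpace ℝ (Fin n))) (c : EuclideanSpace ℝ (Fin n)) (r : ℝ),
    Module.finrank ℝ P.direction = 2 ∧ c ∈ P ∧ 0 < r ∧ S = {x | x ∈ P ∧ dist x c = r}

abbrev E := EuclideanSpace ℝ (Fin 4)

/-- the curve -/
noncomputable def P (t : ℝ) : E := !₂[cos t, sin t, cos (3 * t) / 2, sin (3 * t) / 2]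

theorem P_congr {s t : ℝ} (h1 : cos s = cos t) (h2 : sin s = sin t) : P s = P t := by
  unfold P
  rw [cos_three_mul, cos_three_mul, sin_three_mul, sin_three_mul, h1, h2]

theorem dist_sq (s t : ℝ) : dist (P t) ((2 : ℝ) • P s) ^ 2 =
    25 / 4 - 4 * (cos (s - t) * (1 / 4 + cos (s - t) ^ 2)) := by
  rw [EuclideanSpace.dist_eq, Real.sq_sqrt (by positivity)]
  simp only [P, Fin.sum_univ_four, PiLp.smul_apply, smul_eq_mul, Real.dist_eq, sq_abs]
  simp only [Matrix.cons_val_zero, Matrix.cons_val_one, Matrix.cons_val]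
  have h1 : cos (3 * s) * cos (3 * t) + sin (3 * s) * sin (3 * t) =
      4 * cos (s - t) ^ 3 - 3 * cos (s - t) := by
    rw [← cos_sub, ← cos_three_mul]; ring_nf
  have h2 := cos_sub s t
  have h3 := sin_sq_add_cos_sq s
  have h4 := sin_sq_add_cos_sq t
  have h5 := sin_sq_add_cos_sq (3 * s)
  have h6 := sin_sq_add_cos_sq (3 * t)
  set C := cos (s - t)
  generalize cos (3 * s) = a at *
  generalize sin (3 * s) = b at *
  generalize cos (3 * t) = a' at *
  generalize sin (3 * t) = b' at *
  linear_combination (-1) * h1 + h6 / 4 + h5 + h4 + 4 * h3 + 4 * h2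

theorem dist_iff (s t : ℝ) : dist (P t) ((2 : ℝ) • P s) = 5 / 2 ↔ cos (s - t) = 0 := by
  have h := dist_sq s t
  constructor
  · intro h1
    rw [h1] at h
    have h2 : cos (s - t) * (1 / 4 + cos (s - t) ^ 2) = 0 := by linarith
    rcases mul_eq_zero.mp h2 with h3 | h3
    · exact h3
    · nlinarith [sq_nonneg (cos (s - t))]
  · intro h1
    rw [h1] at h
    have h2 : dist (P t) ((2 : ℝ) • P s) ^ 2 = (5 / 2) ^ 2 := by rw [h]; norm_num
    exact (sq_eq_sq₀ dist_nonneg (by norm_num)).mp h2

theorem cos_zero_cases {s t : ℝ} (h : cos (s - t) = 0) :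
    P s = P (t + π / 2) ∨ P s = P (t - π / 2) := by
  have h1 : sin (s - t) ^ 2 = 1 := by
    have := sin_sq_add_cos_sq (s - t)
    rw [h] at this; linarith
  have hc : cos s = - sin t * sin (s - t) := by
    have : cos s = cos (t + (s - t)) := by ring_nf
    rw [this, cos_add, h]; ring
  have hs : sin s = cos t * sin (s - t) := by
    have : sin s = sin (t + (s - t)) := by ring_nf
    rw [this, sin_add, h]; ring
  have h1' : (sin (s - t) - 1) * (sin (s - t) + 1) = 0 := by linarith
  rcases mul_eq_zero.mp h1' with h2 | h2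
  · left
    apply P_congr
    · rw [hc, cos_add_pi_div_two]; linear_combination (-sin t) * h2
    · rw [hs, sin_add_pi_div_two]; linear_combination (cos t) * h2
  · right
    apply P_congr
    · rw [hc, cos_sub_pi_div_two]; linear_combination (-sin t) * h2
    · rw [hs, sin_sub_pi_div_two]; linear_combination (cos t) * h2

theorem norm_P (t : ℝ) : ‖P t‖ ^ 2 = 5 / 4 := by
  rw [EuclideanSpace.norm_eq, Real.sq_sqrt (by positivity)]
  simp only [P, Fin.sum_univ_four, Real.norm_eq_abs, sq_abs]
  simp only [Matrix.cons_val_zero, Matrix.cons_val_one, Matrix.cons_val]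
  have h4 := sin_sq_add_cos_sq t
  have h6 := sin_sq_add_cos_sq (3 * t)
  linear_combination h4 + h6 / 4

theorem P_ne {s t : ℝ} (h : P s = P t) : cos s = cos t ∧ sin s = sin t := by
  have h0 := congrArg (fun v : E => v 0) h
  have h1 := congrArg (fun v : E => v 1) h
  simp only [P, Matrix.cons_val_zero, Matrix.cons_val_one] at h0 h1
  exact ⟨h0, h1⟩

/-- the two loci -/
def A : Set E := range P
def B : Set E := (fun x => (2 : ℝ) • x + (0 : E)) '' A

theorem mem_B (s : ℝ) : (2 : ℝ) • P s ∈ B := ⟨P s, mem_range_self s, by simp⟩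

theorem B_cases {x : E} (hx : x ∈ B) : ∃ s, x = (2 : ℝ) • P s := by
  obtain ⟨_, ⟨s, rfl⟩, rfl⟩ := hx
  exact ⟨s, by simp⟩

theorem disj {x : E} (hA : x ∈ A) (hB : x ∈ B) : False := by
  obtain ⟨t, rfl⟩ := hA
  obtain ⟨s, hs⟩ := B_cases hB
  have h1 := norm_P t
  have h2 := norm_P s
  rw [hs, norm_smul, mul_pow, h2] at h1
  norm_num at h1

noncomputable def curve (z : Circle) : E :=
  !₂[(z : ℂ).re, (z : ℂ).im, (4 * (z : ℂ).re ^ 3 - 3 * (z : ℂ).re) / 2,
    (3 * (z : ℂ).im - 4 * (z : ℂ).im ^ 3) / 2]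

theorem curve_exp (t : ℝ) : curve (Circle.exp t) = P t := by
  unfold curve P
  rw [cos_three_mul, sin_three_mul]
  have h1 : ((Circle.exp t : Circle) : ℂ).re = cos t := by
    rw [Circle.coe_exp, Complex.exp_ofReal_mul_I_re]
  have h2 : ((Circle.exp t : Circle) : ℂ).im = sin t := by
    rw [Circle.coe_exp, Complex.exp_ofReal_mul_I_im]
  rw [h1, h2]

theorem curve_continuous : Continuous curve := by
  unfold curve
  apply (PiLp.continuous_toLp 2 _).comp
  apply continuous_pi
  intro i
  fin_cases i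
  all_goals simp
  all_goals fun_prop

theorem range_curve : range curve = A := by
  ext x
  constructor
  · rintro ⟨z, rfl⟩
    refine ⟨Complex.arg z, ?_⟩
    rw [← curve_exp, Circle.exp_arg]
  · rintro ⟨t, rfl⟩
    exact ⟨Circle.exp t, curve_exp t⟩

theorem curve_injective : Function.Injective curve := by
  intro z w h
  have h0 := congrArg (fun v : E => v 0) h
  have h1 := congrArg (fun v : E => v 1) h
  simp only [curve, Matrix.cons_val_zero, Matrix.cons_val_one] at h0 h1
  exact Circle.ext (Complex.ext h0 h1)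

/-- No 2-dimensional affine plane contains `k • A`, `k ≠ 0`. -/
theorem not_in_plane (k : ℝ) (hk : k ≠ 0) (Q : AffineSubspace ℝ E)
    (hQ : Module.finrank ℝ Q.direction = 2) (h : ∀ t, k • P t ∈ Q) : False := by
  have hv : ∀ s t, k • (P s - P t) ∈ Q.direction := by
    intro s t
    have := Q.vsub_mem_direction (h s) (h t)
    rw [vsub_eq_sub, ← smul_sub] at this
    exact this
  set r : ℝ := cos (π / 4) with hr
  have hr2 : r ^ 2 = 1 / 2 := by
    rw [hr, cos_pi_div_four, div_pow, Real.sq_sqrt (by norm_num)]; norm_num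
  have hrs : sin (π / 4) = r := by rw [hr, cos_pi_div_four, sin_pi_div_four]
  have hr0 : r ≠ 0 := by
    intro h0; rw [h0] at hr2; norm_num at hr2
  let w : Fin 3 → E := ![P 0 - P π, P (π / 2) - P (-(π / 2)), P (π / 4) - P (π / 4 + π)]
  have hli : LinearIndependent ℝ w := by
    rw [Fintype.linearIndependent_iff]
    intro g hg
    rw [Fin.sum_univ_three] at hg
    have e0 := congrArg (fun v : E => v 0) hg
    have e1 := congrArg (fun v : E => v 1) hg
    have e2 := congrArg (fun v : E => v 2) hg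
    have e3 := congrArg (fun v : E => v 3) hg
    simp only [w, P, cos_three_mul, sin_three_mul, Matrix.cons_val_zero, Matrix.cons_val_one,
      Matrix.cons_val, PiLp.add_apply, PiLp.smul_apply, PiLp.sub_apply, smul_eq_mul,
      PiLp.zero_apply, cos_zero, sin_zero, cos_pi, sin_pi, cos_pi_div_two, sin_pi_div_two,
      cos_neg, sin_neg, cos_add_pi, sin_add_pi, ← hr, hrs] at e0 e1 e2 e3
    have hc : g 2 = 0 := by
      have h1 : g 2 * r = 0 := by
        have h3 : r ^ 3 = r / 2 := by rw [pow_succ, hr2]; ring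
        ring_nf at e0 e2
        rw [h3] at e2
        linarith
      exact (mul_eq_zero.mp h1).resolve_right hr0
    rw [hc] at e0 e1
    have ha : g 0 = 0 := by linarith
    have hb : g 1 = 0 := by linarith
    intro i
    fin_cases i
    · exact ha
    · exact hb
    · exact hc
  have hmem : ∀ i, w i ∈ Q.direction := by
    have h1 : ∀ s t, P s - P t ∈ Q.direction := by
      intro s t
      have h2 := Q.direction.smul_mem k⁻¹ (hv s t)
      rwa [smul_smul, inv_mul_cancel₀ hk, one_smul] at h2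
    intro i
    fin_cases i
    · exact h1 _ _
    · exact h1 _ _
    · exact h1 _ _
  let w' : Fin 3 → Q.direction := fun i => ⟨w i, hmem i⟩
  have hli' : LinearIndependent ℝ w' := by
    apply LinearIndependent.of_comp Q.direction.subtype
    exact hli
  have h3 := hli'.fintype_card_le_finrank
  rw [hQ, Fintype.card_fin] at h3
  norm_num at h3

theorem A_not_circle : ¬ IsCircle A := by
  rintro ⟨Q, c, r, hQ, -, -, hS⟩
  apply not_in_plane 1 one_ne_zero Q hQ
  intro t
  have : P t ∈ A := mem_range_self t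
  rw [hS] at this
  rw [one_smul]
  exact this.1

theorem B_not_circle : ¬ IsCircle B := by
  rintro ⟨Q, c, r, hQ, -, -, hS⟩
  apply not_in_plane 2 two_ne_zero Q hQ
  intro t
  have := mem_B t
  rw [hS] at this
  exact this.1

abbrev Vt := ((A ∪ B : Set E))

noncomputable def va (t : ℝ) : Vt := ⟨P t, Or.inl (mem_range_self t)⟩
noncomputable def vb (t : ℝ) : Vt := ⟨(2 : ℝ) • P t, Or.inr (mem_B t)⟩

theorem adj_va (t : ℝ) (q : Vt) : (distGraph A B (5 / 2)).Adj (va t) q ↔
    q = vb (t + π / 2) ∨ q = vb (t - π / 2) := by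
  constructor
  · rintro ⟨-, h, hd⟩
    rcases h with ⟨-, hq⟩ | ⟨h', -⟩
    · obtain ⟨s, hs⟩ := B_cases hq
      rw [hs] at hd
      rcases cos_zero_cases ((dist_iff s t).mp hd) with h | h
      · left; apply Subtype.ext; rw [hs, h]; rfl
      · right; apply Subtype.ext; rw [hs, h]; rfl
    · exact absurd h' (fun h' => disj (mem_range_self t) h')
  · intro h
    have key : ∀ s, cos (s - t) = 0 → (distGraph A B (5 / 2)).Adj (va t) (vb s) := by
      intro s hs
      refine ⟨?_, Or.inl ⟨mem_range_self t, mem_B s⟩, (dist_iff s t).mpr hs⟩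
      intro h
      have h1 : P t = (2 : ℝ) • P s := congrArg Subtype.val h
      exact disj (mem_range_self t) (h1 ▸ mem_B s)
    rcases h with rfl | rfl
    · apply key; rw [add_sub_cancel_left, cos_pi_div_two]
    · apply key; rw [show t - π / 2 - t = -(π / 2) by ring, cos_neg, cos_pi_div_two]

theorem adj_vb (s : ℝ) (q : Vt) : (distGraph A B (5 / 2)).Adj (vb s) q ↔
    q = va (s + π / 2) ∨ q = va (s - π / 2) := by
  constructor
  · rintro ⟨-, h, hd⟩
    rcases h with ⟨h', -⟩ | ⟨-, hq⟩
    · exact absurd (mem_B s) (fun h'' => disj h' h'')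
    · obtain ⟨t, ht⟩ := hq
      rw [← ht, dist_comm] at hd
      have h1 := (dist_iff s t).mp hd
      have h2 : cos (t - s) = 0 := by rw [← cos_neg, neg_sub]; exact h1
      rcases cos_zero_cases h2 with h | h
      · left; apply Subtype.ext; rw [← ht, h]; rfl
      · right; apply Subtype.ext; rw [← ht, h]; rfl
  · intro h
    rcases h with rfl | rfl
    · apply SimpleGraph.Adj.symm
      rw [adj_va]; right; rw [add_sub_cancel_right]
    · apply SimpleGraph.Adj.symm
      rw [adj_va]; left; rw [sub_add_cancel]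

theorem P_add_ne (t : ℝ) : P (t + π / 2) ≠ P (t - π / 2) := by
  intro h
  obtain ⟨h1, h2⟩ := P_ne h
  rw [cos_add_pi_div_two, cos_sub_pi_div_two] at h1
  rw [sin_add_pi_div_two, sin_sub_pi_div_two] at h2
  have h3 : sin t = 0 := by linarith
  have h4 : cos t = 0 := by linarith
  have := sin_sq_add_cos_sq t
  rw [h3, h4] at this
  norm_num at this

theorem vertex_cases (v : Vt) : (∃ t, v = va t) ∨ (∃ s, v = vb s) := by
  obtain ⟨x, hx | hx⟩ := v
  · obtain ⟨t, rfl⟩ := hx
    exact Or.inl ⟨t, rfl⟩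
  · obtain ⟨s, rfl⟩ := B_cases hx
    exact Or.inr ⟨s, rfl⟩

theorem two_regular (v : Vt) : ((distGraph A B (5 / 2)).neighborSet v).ncard = 2 := by
  rcases vertex_cases v with ⟨t, rfl⟩ | ⟨s, rfl⟩
  · have : (distGraph A B (5 / 2)).neighborSet (va t) = {vb (t + π / 2), vb (t - π / 2)} := by
      ext q
      rw [SimpleGraph.mem_neighborSet, adj_va]
      rfl
    rw [this, Set.ncard_pair]
    intro h
    have h1 : (2 : ℝ) • P (t + π / 2) = (2 : ℝ) • P (t - π / 2) := congrArg Subtype.val h
    exact P_add_ne t (smul_right_injective E (two_ne_zero : (2 : ℝ) ≠ 0) h1)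
  · have : (distGraph A B (5 / 2)).neighborSet (vb s) = {va (s + π / 2), va (s - π / 2)} := by
      ext q
      rw [SimpleGraph.mem_neighborSet, adj_vb]
      rfl
    rw [this, Set.ncard_pair]
    intro h
    have h1 : P (s + π / 2) = P (s - π / 2) := congrArg Subtype.val h
    exact P_add_ne s h1

/-- the orbit set -/
def Orb (t : ℝ) : Set Vt := {x | ∃ k : ℤ, x = va (t + k * (π / 2)) ∨ x = vb (t + k * (π / 2))}

theorem P_mod (t : ℝ) (k : ℤ) : P (t + k * (π / 2)) = P (t + ((k % 4 : ℤ) : ℝ) * (π / 2)) := by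
  have h1 : (k : ℝ) = ((k % 4 : ℤ) : ℝ) + 4 * ((k / 4 : ℤ) : ℝ) := by
    have := Int.emod_add_mul_ediv k 4
    exact_mod_cast this.symm
  have h2 : t + k * (π / 2) = t + ((k % 4 : ℤ) : ℝ) * (π / 2) + ((k / 4 : ℤ) : ℝ) * (2 * π) := by
    rw [h1]; ring_nf
  rw [h2]
  exact P_congr (cos_add_int_mul_two_pi _ _) (sin_add_int_mul_two_pi _ _)

theorem orb_finite (t : ℝ) : (Orb t).Finite := by
  have h : Orb t ⊆ (fun k : ℤ => va (t + k * (π / 2))) '' (Set.Icc 0 3) ∪
      (fun k : ℤ => vb (t + k * (π / 2))) '' (Set.Icc 0 3) := by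
    rintro x ⟨k, hk⟩
    have hk0 := Int.emod_nonneg k (by norm_num : (4 : ℤ) ≠ 0)
    have hk4 := Int.emod_lt_of_pos k (by norm_num : (0 : ℤ) < 4)
    rcases hk with rfl | rfl
    · left
      exact ⟨k % 4, ⟨hk0, by omega⟩, Subtype.ext (P_mod t k).symm⟩
    · right
      exact ⟨k % 4, ⟨hk0, by omega⟩, Subtype.ext (by
        change (2 : ℝ) • P _ = (2 : ℝ) • P _
        rw [P_mod t k])⟩
  exact (((Set.finite_Icc _ _).image _).union ((Set.finite_Icc _ _).image _)).subset h

theorem orb_closed (t : ℝ) {x y : Vt} (hx : x ∈ Orb t) (h : (distGraph A B (5 / 2)).Adj x y) :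
    y ∈ Orb t := by
  obtain ⟨k, rfl | rfl⟩ := hx
  · rw [adj_va] at h
    rcases h with rfl | rfl
    · exact ⟨k + 1, Or.inr (by push_cast; congr 1; ring)⟩
    · exact ⟨k - 1, Or.inr (by push_cast; congr 1; ring)⟩
  · rw [adj_vb] at h
    rcases h with rfl | rfl
    · exact ⟨k + 1, Or.inl (by push_cast; congr 1; ring)⟩
    · exact ⟨k - 1, Or.inl (by push_cast; congr 1; ring)⟩

theorem walk_orb (t : ℝ) {v w : Vt} (p : (distGraph A B (5 / 2)).Walk v w) (hv : v ∈ Orb t) :
    w ∈ Orb t := by
  induction p with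
  | nil => exact hv
  | cons hadj _ ih => exact ih (orb_closed t hv hadj)

theorem components_finite (c : (distGraph A B (5 / 2)).ConnectedComponent) : c.supp.Finite := by
  obtain ⟨v, rfl⟩ := c.exists_rep
  have hv : ∃ t, v ∈ Orb t := by
    rcases vertex_cases v with ⟨t, rfl⟩ | ⟨s, rfl⟩
    · exact ⟨t, 0, Or.inl (by simp)⟩
    · exact ⟨s, 0, Or.inr (by simp)⟩
  obtain ⟨t, ht⟩ := hv
  apply (orb_finite t).subset
  intro w hw
  have hw' : (distGraph A B (5 / 2)).Reachable v w := by
    have : (distGraph A B (5 / 2)).connectedComponentMk w =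
        (distGraph A B (5 / 2)).connectedComponentMk v := hw
    exact (SimpleGraph.ConnectedComponent.exact this).symm
  obtain ⟨p⟩ := hw'
  exact walk_orb t p ht

/-- There are homothetic closed loci `A, B` in `E^4`, given moreover by an injective closed curve,
neither of which is a circle, and `d > 0` such that every point of `A ∪ B` has exactly two
neighbours in `G_d` and every component of `G_d` is finite. -/
theorem result : ∃ (A B : Set (EuclideanSpace ℝ (Fin 4))) (d : ℝ),
    0 < d ∧ IsClosedLocus A ∧ IsClosedLocus B ∧ Homothetic A B ∧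
    (∃ f : Circle → EuclideanSpace ℝ (Fin 4), Continuous f ∧ Function.Injective f ∧
      range f = A) ∧
    ¬ IsCircle A ∧ ¬ IsCircle B ∧
    (∀ v, ((distGraph A B d).neighborSet v).ncard = 2) ∧
    ∀ c : (distGraph A B d).ConnectedComponent, c.supp.Finite := by
  refine ⟨A, B, 5 / 2, by norm_num, ⟨curve, curve_continuous, range_curve⟩, ?_,
    ⟨2, 0, two_ne_zero, rfl⟩, ⟨curve, curve_continuous, curve_injective, range_curve⟩,
    A_not_circle, B_not_circle, two_regular, components_finite⟩
  refine ⟨fun z => (2 : ℝ) • curve z + 0, ?_, ?_⟩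
  · have := curve_continuous
    fun_prop
  · rw [B, ← range_curve, ← range_comp]
    rfl

end Pool.Agent.Results.MP_945a85_co.Main
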